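import Mathlib

/-!
# The coefficients of `det (S + τ W + √(β + c τ) Ω)`

`D = det (S + τ W + x Ω)` as a polynomial in `x` (outer variable) and `τ` (inner variable), `G` with `D = G (x ^ 2)`, and `Gc c = G (X + c τ)`.
-/

set_option autoImplicit false

set_option maxHeartbeats 1000000

namespace Pool.Agent.Helper2.IL

open Polynomial Finset

variable {ι : Type*} [Fintype ι] [DecidableEq ι] (S W Om : Matrix ι ι ℝ)

/-- The matrix `S + τ W + x Ω`. -/
noncomputable def Mx : Matrix ι ι ℝ[X][X] :=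
  Matrix.of fun i j => C (C (S i j) + X * C (W i j)) + X * C (C (Om i j))

noncomputable def D : ℝ[X][X] := (Mx S W Om).det

noncomputable def G : ℝ[X][X] := contract 2 (D S W Om)

noncomputable def Gc (c : ℝ) : ℝ[X][X] := taylor (C c * X : ℝ[X]) (G S W Om)

/-- The coefficient of `β ^ m τ ^ k` in `det (S + τ W + √(β + c τ) Ω)`. -/
noncomputable def B (c : ℝ) (m k : ℕ) : ℝ := ((Gc S W Om c).coeff m).coeff k

/-- Evaluation at `τ = t`, `x = x`. -/
noncomputable def ev (t x : ℂ) : ℝ[X][X] →+* ℂ := eval₂RingHom (eval₂RingHom (algebraMap ℝ ℂ) t) x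

theorem ev_D (t x : ℂ) : ev t x (D S W Om) =
    (Matrix.of fun i j => (S i j : ℂ) + t * (W i j : ℂ) + x * (Om i j : ℂ)).det := by
  rw [D, RingHom.map_det]
  congr 1
  ext i j
  simp only [RingHom.mapMatrix_apply, Matrix.map_apply, Mx, Matrix.of_apply, ev, coe_eval₂RingHom, eval₂_add, eval₂_C, eval₂_mul,
    eval₂_X, Complex.coe_algebraMap]

/-- Weighted degree: the outer variable has weight `w`, the inner variable has weight `1`. -/
def Wd (w d : ℕ) (p : ℝ[X][X]) : Prop := ∀ m k, d < w * m + k → (p.coeff m).coeff k = 0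

theorem Wd.mono {w d e : ℕ} {p : ℝ[X][X]} (h : Wd w d p) (hde : d ≤ e) : Wd w e p := fun m k hmk => h m k (by omega)

theorem Wd.add {w d : ℕ} {p q : ℝ[X][X]} (hp : Wd w d p) (hq : Wd w d q) : Wd w d (p + q) := fun m k hmk => by
  rw [coeff_add, coeff_add, hp m k hmk, hq m k hmk, add_zero]

theorem Wd.neg {w d : ℕ} {p : ℝ[X][X]} (hp : Wd w d p) : Wd w d (-p) := fun m k hmk => by
  rw [coeff_neg, coeff_neg, hp m k hmk, neg_zero]

theorem Wd.zero (w d : ℕ) : Wd w d 0 := fun m k _ => by simp

theorem Wd.sum {α : Type*} {w d : ℕ} (s : Finset α) (p : α → ℝ[X][X]) (h : ∀ a ∈ s, Wd w d (p a)) : Wd w d (∑ a ∈ s, p a) := by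
  classical
  induction s using Finset.induction_on with
  | empty => exact Wd.zero w d
  | insert a s ha ih =>
    rw [Finset.sum_insert ha]
    exact (h a (mem_insert_self a s)).add (ih fun b hb => h b (mem_insert_of_mem hb))

theorem Wd.mul {w d e : ℕ} {p q : ℝ[X][X]} (hp : Wd w d p) (hq : Wd w e q) : Wd w (d + e) (p * q) := by
  intro m k hmk
  rw [coeff_mul, finsetSum_coeff]
  refine Finset.sum_eq_zero fun a ha => ?_
  rw [coeff_mul]
  refine Finset.sum_eq_zero fun b hb => ?_
  have ha' := mem_antidiagonal.1 ha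
  have hb' := mem_antidiagonal.1 hb
  by_cases h1 : d < w * a.1 + b.1
  · rw [hp _ _ h1, zero_mul]
  · have h2 : e < w * a.2 + b.2 := by
      have : w * a.1 + w * a.2 = w * m := by rw [← Nat.mul_add, ha']
      omega
    rw [hq _ _ h2, mul_zero]

theorem Wd.one (w : ℕ) : Wd w 0 1 := by
  intro m k hmk
  rw [coeff_one]
  split_ifs with hm
  · rw [coeff_one, if_neg]
    subst hm
    omega
  · simp

theorem Wd.prod {α : Type*} {w d : ℕ} (s : Finset α) (p : α → ℝ[X][X]) (h : ∀ a ∈ s, Wd w d (p a)) :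
    Wd w (#s * d) (∏ a ∈ s, p a) := by
  classical
  induction s using Finset.induction_on with
  | empty => simpa using Wd.one w
  | insert a s ha ih =>
    rw [Finset.prod_insert ha, Finset.card_insert_of_notMem ha]
    have := (h a (mem_insert_self a s)).mul (ih fun b hb => h b (mem_insert_of_mem hb))
    refine this.mono (le_of_eq ?_)
    ring

theorem Wd.pow {w d : ℕ} {p : ℝ[X][X]} (h : Wd w d p) (n : ℕ) : Wd w (n * d) (p ^ n) := by
  induction n with
  | zero => simpa using Wd.one w
  | succ n ih =>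
    rw [pow_succ]
    exact (ih.mul h).mono (le_of_eq (by ring))

theorem wd_entry (a b e : ℝ) : Wd 1 1 (C (C a + X * C b) + X * C (C e)) := by
  intro m k hmk
  rw [coeff_add, coeff_C]
  rcases m with _ | m
  · rcases k with _ | k
    · omega
    · rw [if_pos rfl, coeff_add, coeff_add, coeff_C_succ, coeff_X_mul, coeff_X_mul_zero, coeff_zero, zero_add, add_zero, coeff_C,
        if_neg (by omega)]
  · rw [if_neg (by omega), coeff_X_mul, zero_add, coeff_C]
    split_ifs with h
    · rw [coeff_C, if_neg (by omega)]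
    · rw [coeff_zero]

theorem wd_D : Wd 1 (Fintype.card ι) (D S W Om) := by
  rw [D, Matrix.det_apply]
  refine Wd.sum _ _ fun σ _ => ?_
  have hp : Wd 1 (Fintype.card ι) (∏ i, Mx S W Om (σ i) i) := by
    have := Wd.prod (w := 1) (d := 1) (Finset.univ : Finset ι) (fun i => Mx S W Om (σ i) i) fun i _ => wd_entry _ _ _
    simpa using this
  rcases Int.units_eq_one_or (Equiv.Perm.sign σ) with h | h
  · rw [h, one_smul]
    exact hp
  · rw [h, Units.neg_smul, one_smul]
    exact hp.neg

theorem coeff_G (m : ℕ) : (G S W Om).coeff m = (D S W Om).coeff (2 * m) := by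
  rw [G, coeff_contract (by norm_num), mul_comm]

theorem wd_G : Wd 2 (Fintype.card ι) (G S W Om) := by
  intro m k hmk
  rw [coeff_G]
  exact wd_D S W Om _ _ (by omega)

theorem wd_taylor {d : ℕ} {f : ℝ[X][X]} (hf : Wd 2 d f) (c : ℝ) : Wd 2 d (taylor (C c * X : ℝ[X]) f) := by
  rw [f.as_sum_range, map_sum]
  refine Wd.sum _ _ fun i _ => ?_
  rw [taylor_monomial]
  by_cases h0 : f.coeff i = 0
  · rw [h0, C_0, zero_mul]
    exact Wd.zero 2 d
  have hid : 2 * i ≤ d := by
    by_contra hcon
    apply h0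
    ext k
    rw [coeff_zero]
    exact hf i k (by omega)
  have h1 : Wd 2 2 (X + C (C c * X) : ℝ[X][X]) := by
    intro m k hmk
    rw [coeff_add, coeff_X, coeff_C]
    by_cases hm : m = 0
    · subst hm
      rw [if_neg (by norm_num), if_pos rfl, zero_add, coeff_C_mul, coeff_X, if_neg (by omega), mul_zero]
    · rw [if_neg hm, add_zero]
      split_ifs with h
      · subst h
        rw [coeff_one, if_neg (by omega)]
      · rfl
  have h2 : Wd 2 (d - 2 * i) (C (f.coeff i) : ℝ[X][X]) := by
    intro m k hmk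
    rw [coeff_C]
    split_ifs with h
    · subst h
      exact hf i k (by omega)
    · rfl
  exact (h2.mul (h1.pow i)).mono (by omega)

theorem B_supp (c : ℝ) {m k : ℕ} (h : Fintype.card ι < 2 * m + k) : B S W Om c m k = 0 :=
  wd_taylor (wd_G S W Om) c m k h

variable {S W Om}

/-- The determinant is an even function of `x`. -/
theorem D_even (hS : S.transpose = S) (hW : W.transpose = W) (hO : Om.transpose = -Om) : (D S W Om).comp (-X) = D S W Om := by
  have h1 : (D S W Om).comp (-X) = compRingHom (-X) (D S W Om) := rfl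
  rw [h1, D, RingHom.map_det, ← Matrix.det_transpose (Mx S W Om)]
  congr 1
  ext1 i j
  have e1 : S j i = S i j := congrFun (congrFun hS i) j
  have e2 : W j i = W i j := congrFun (congrFun hW i) j
  have e3 : Om j i = -Om i j := congrFun (congrFun hO i) j
  simp only [RingHom.mapMatrix_apply, Matrix.map_apply, Matrix.transpose_apply, Mx, Matrix.of_apply, coe_compRingHom_apply, add_comp,
    mul_comp, X_comp, C_comp, e1, e2, e3]
  rw [map_neg, map_neg]
  ring

theorem D_odd (hS : S.transpose = S) (hW : W.transpose = W) (hO : Om.transpose = -Om) (m : ℕ) : (D S W Om).coeff (2 * m + 1) = 0 := by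
  have h := congrArg (fun p : ℝ[X][X] => p.coeff (2 * m + 1)) (D_even hS hW hO)
  have e : ((D S W Om).comp (-X)).coeff (2 * m + 1) = (-1) ^ (2 * m + 1) * (D S W Om).coeff (2 * m + 1) := by
    have : (-X : ℝ[X][X]) = C (-1) * X := by
      rw [map_neg, map_one]
      ring
    rw [this, comp_C_mul_X_coeff]
    ring
  rw [e, pow_succ, pow_mul] at h
  have h2 : (2 : ℝ[X]) * (D S W Om).coeff (2 * m + 1) = 0 := by linear_combination -h
  have h3 : (2 : ℝ[X]) ≠ 0 := two_ne_zero
  exact (mul_eq_zero.1 h2).resolve_left h3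

theorem D_expand (hS : S.transpose = S) (hW : W.transpose = W) (hO : Om.transpose = -Om) : D S W Om = expand ℝ[X] 2 (G S W Om) := by
  ext1 n
  rw [coeff_expand (by norm_num)]
  split_ifs with h
  · obtain ⟨m, rfl⟩ := h
    rw [Nat.mul_div_cancel_left _ (by norm_num), coeff_G]
  · obtain ⟨m, hm⟩ := Nat.even_or_odd' n
    rcases hm with hm | hm
    · exact absurd ⟨m, hm⟩ h
    · rw [hm]
      exact D_odd hS hW hO m

theorem ev_G (hS : S.transpose = S) (hW : W.transpose = W) (hO : Om.transpose = -Om) (t x : ℂ) :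
    ev t (x ^ 2) (G S W Om) = ev t x (D S W Om) := by
  rw [D_expand hS hW hO, expand_eq_comp_X_pow]
  simp only [ev, coe_eval₂RingHom, eval₂_comp, eval₂_pow, eval₂_X]

theorem ev_Gc (c : ℝ) (t x : ℂ) : ev t x (Gc S W Om c) = ev t (x + c * t) (G S W Om) := by
  rw [Gc, taylor_apply]
  simp only [ev, coe_eval₂RingHom, eval₂_comp, eval₂_add, eval₂_mul, eval₂_C, eval₂_X]
  rfl

theorem ev_sum {d : ℕ} {p : ℝ[X][X]} (hp : Wd 2 d p) (t x : ℂ) :
    ev t x p = ∑ m ∈ range (d + 1), (∑ k ∈ range (d + 1), (((p.coeff m).coeff k : ℝ) : ℂ) * t ^ k) * x ^ m := by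
  have h1 : p.natDegree < d + 1 := by
    rw [Nat.lt_succ_iff, natDegree_le_iff_coeff_eq_zero]
    intro m hm
    ext k
    rw [coeff_zero]
    exact hp m k (by omega)
  rw [ev, coe_eval₂RingHom, eval₂_eq_sum_range' _ h1]
  refine Finset.sum_congr rfl fun m _ => ?_
  have h2 : (p.coeff m).natDegree < d + 1 := by
    rw [Nat.lt_succ_iff, natDegree_le_iff_coeff_eq_zero]
    intro k hk
    exact hp m k (by omega)
  rw [coe_eval₂RingHom, eval₂_eq_sum_range' _ h2]
  rfl

end Pool.Agent.Helper2.IL
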