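import Pool.Agent.Helper2.IL.Window
import Pool.Agent.Helper2.IL.Poly
import Pool.Agent.Helper25.EP.Stab

/-!
# The interlacing relations for the coefficients of `det (S + τ W + √(β + c τ) Ω)`
-/

set_option autoImplicit false

set_option maxHeartbeats 1000000

namespace Pool.Agent.Helper2.IL

open Polynomial Finset Filter Topology

variable {ι : Type*} [Fintype ι] [DecidableEq ι] (S W Om : Matrix ι ι ℝ)

/-- The coefficient of `s ^ j t ^ k` in `det (s S + t W + √(1 + c s t) Ω)`. -/
noncomputable def g (c : ℝ) (j k : ℕ) : ℝ :=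
  if j + k ≤ Fintype.card ι ∧ (j + k) % 2 = Fintype.card ι % 2 then B S W Om c ((Fintype.card ι - (j + k)) / 2) k else 0

theorem g_eq (c : ℝ) {m k : ℕ} (h : 2 * m + k ≤ Fintype.card ι) :
    g S W Om c (Fintype.card ι - (2 * m + k)) k = B S W Om c m k := by
  rw [g, if_pos (by omega)]
  congr 1
  omega

theorem g_supp (c : ℝ) {j k : ℕ} (h : Fintype.card ι < j + k) : g S W Om c j k = 0 := by
  rw [g, if_neg (by omega)]

theorem g_par (c : ℝ) {j k : ℕ} (h : (j + k) % 2 ≠ Fintype.card ι % 2) : g S W Om c j k = 0 := by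
  rw [g, if_neg (by omega)]

theorem Val_g (c : ℝ) {s : ℂ} (hs : s ≠ 0) (t : ℂ) :
    Val (Fintype.card ι) (g S W Om c) s t = s ^ Fintype.card ι * ev (t / s) ((s⁻¹) ^ 2) (Gc S W Om c) := by
  have hev : ev (t / s) ((s⁻¹) ^ 2) (Gc S W Om c) = _ := ev_sum (wd_taylor (wd_G S W Om) c) (t / s) ((s⁻¹) ^ 2)
  rw [Val, hev, Finset.mul_sum]
  have e1 : ∀ m ∈ range (Fintype.card ι + 1), s ^ Fintype.card ι *
      ((∑ k ∈ range (Fintype.card ι + 1), ((((taylor (C c * X : ℝ[X]) (G S W Om)).coeff m).coeff k : ℝ) : ℂ) * (t / s) ^ k) * (s⁻¹ ^ 2) ^ m) =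
      ∑ k ∈ range (Fintype.card ι + 1), (s ^ Fintype.card ι * ((B S W Om c m k : ℂ) * (t / s) ^ k * (s⁻¹ ^ 2) ^ m)) := by
    intro m _
    rw [Finset.sum_mul, Finset.mul_sum]
    rfl
  rw [Finset.sum_congr rfl e1, Finset.sum_comm]
  refine Finset.sum_congr rfl fun k _ => ?_
  rw [Finset.sum_mul]
  refine Finset.sum_bij_ne_zero (fun j _ _ => (Fintype.card ι - (j + k)) / 2) ?_ ?_ ?_ ?_
  · intro j hj hne
    rw [mem_range]
    omega
  · intro j hj hne j' hj' hne' he
    have h1 : j + k ≤ Fintype.card ι ∧ (j + k) % 2 = Fintype.card ι % 2 := by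
      by_contra hcon
      apply hne
      rw [g, if_neg hcon]
      simp
    have h2 : j' + k ≤ Fintype.card ι ∧ (j' + k) % 2 = Fintype.card ι % 2 := by
      by_contra hcon
      apply hne'
      rw [g, if_neg hcon]
      simp
    omega
  · intro m hm hne
    have hmk : 2 * m + k ≤ Fintype.card ι := by
      by_contra hcon
      apply hne
      rw [B_supp S W Om c (by omega)]
      simp
    refine ⟨Fintype.card ι - (2 * m + k), mem_range.2 (by omega), ?_, by omega⟩
    intro hcon
    apply hne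
    rw [g_eq S W Om c hmk] at hcon
    rcases mul_eq_zero.1 hcon with hcon | hcon
    · rcases mul_eq_zero.1 hcon with hcon | hcon
      · rw [hcon]
        simp
      · exact absurd hcon (pow_ne_zero _ hs)
    · rw [div_pow, hcon]
      simp
  · intro j hj hne
    have h1 : j + k ≤ Fintype.card ι ∧ (j + k) % 2 = Fintype.card ι % 2 := by
      by_contra hcon
      apply hne
      rw [g, if_neg hcon]
      simp
    rw [g, if_pos h1, div_pow, ← pow_mul, inv_pow]
    have e2 : Fintype.card ι = j + k + 2 * ((Fintype.card ι - (j + k)) / 2) := by omega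
    have e3 : s ^ Fintype.card ι = s ^ j * s ^ k * s ^ (2 * ((Fintype.card ι - (j + k)) / 2)) := by
      rw [← pow_add, ← pow_add, ← e2]
    rw [e3]
    field_simp

variable {S W Om}

theorem Val_det (hS : S.transpose = S) (hW : W.transpose = W) (hO : Om.transpose = -Om) (c : ℝ) {s : ℂ} (hs : s ≠ 0) (t z : ℂ)
    (hz : z ^ 2 = 1 + c * (s * t)) :
    Val (Fintype.card ι) (g S W Om c) s t =
      (s • Helper25.EP.cx S + t • Helper25.EP.cx W + z • Helper25.EP.cx Om).det := by
  rw [Val_g S W Om c hs, ev_Gc]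
  have e1 : (s⁻¹) ^ 2 + c * (t / s) = (z / s) ^ 2 := by
    rw [div_pow, hz]
    field_simp
    try ring
  rw [e1, ev_G hS hW hO, ev_D]
  have e2 : (s • Helper25.EP.cx S + t • Helper25.EP.cx W + z • Helper25.EP.cx Om) =
      s • (Matrix.of fun i j => (S i j : ℂ) + t / s * (W i j : ℂ) + z / s * (Om i j : ℂ)) := by
    ext i j
    simp only [Helper25.EP.cx, Matrix.add_apply, Matrix.smul_apply, Matrix.map_apply, smul_eq_mul, Matrix.of_apply]
    field_simp
  rw [e2, Matrix.det_smul]

theorem continuous_Val (N : ℕ) (a : ℕ → ℕ → ℝ) (t : ℂ) : Continuous fun s => Val N a s t := by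
  unfold Val
  fun_prop

theorem Val_zero (hS : S.transpose = S) (hW : W.transpose = W) (hO : Om.transpose = -Om) (c : ℝ) (t : ℂ) :
    Val (Fintype.card ι) (g S W Om c) 0 t = ((0 : ℂ) • Helper25.EP.cx S + t • Helper25.EP.cx W + (1 : ℂ) • Helper25.EP.cx Om).det := by
  have h1 : Tendsto (fun s => Val (Fintype.card ι) (g S W Om c) s t) (𝓝[≠] 0) (𝓝 (Val (Fintype.card ι) (g S W Om c) 0 t)) :=
    ((continuous_Val _ _ t).tendsto 0).mono_left nhdsWithin_le_nhds
  have hc : ContinuousAt (fun s : ℂ => ((1 + c * (s * t) : ℂ)) ^ (((2 : ℕ) : ℂ)⁻¹)) 0 := by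
    have h0 : ContinuousAt (fun s : ℂ => (1 + c * (s * t) : ℂ)) 0 := by fun_prop
    have h2 : ContinuousAt (fun w : ℂ => w ^ (((2 : ℕ) : ℂ)⁻¹)) ((fun s : ℂ => (1 + c * (s * t) : ℂ)) 0) := by
      apply continuousAt_cpow_const
      simp [Complex.slitPlane]
    exact ContinuousAt.comp (f := fun s : ℂ => (1 + c * (s * t) : ℂ)) (g := fun w : ℂ => w ^ (((2 : ℕ) : ℂ)⁻¹)) h2 h0
  have h3 : Tendsto (fun s : ℂ => (s • Helper25.EP.cx S + t • Helper25.EP.cx W +
      ((1 + c * (s * t) : ℂ)) ^ (((2 : ℕ) : ℂ)⁻¹) • Helper25.EP.cx Om).det) (𝓝[≠] 0)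
      (𝓝 (((0 : ℂ) • Helper25.EP.cx S + t • Helper25.EP.cx W + (1 : ℂ) • Helper25.EP.cx Om).det)) := by
    have hd : Continuous fun M : Matrix ι ι ℂ => M.det := by
      apply Continuous.matrix_det
      exact continuous_id
    have h4 : ContinuousAt (fun s : ℂ => (s • Helper25.EP.cx S + t • Helper25.EP.cx W +
      ((1 + c * (s * t) : ℂ)) ^ (((2 : ℕ) : ℂ)⁻¹) • Helper25.EP.cx Om)) 0 := by
      refine ContinuousAt.add (ContinuousAt.add ?_ continuousAt_const) ?_
      · exact continuousAt_id.smul continuousAt_const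
      · exact hc.smul continuousAt_const
    have h5 := (hd.continuousAt.comp h4).tendsto
    have e : ((1 + c * (0 * t) : ℂ)) ^ (((2 : ℕ) : ℂ)⁻¹) = 1 := by simp
    simp only [Function.comp_def, e] at h5
    exact h5.mono_left nhdsWithin_le_nhds
  refine tendsto_nhds_unique (h1.congr' ?_) h3
  filter_upwards [self_mem_nhdsWithin] with s hs
  exact Val_det hS hW hO c hs t _ (Complex.cpow_nat_inv_pow _ (by norm_num))

omit [Fintype ι] [DecidableEq ι] in
theorem tr_of_posDef {S : Matrix ι ι ℝ} (hS : S.PosDef) : S.transpose = S := by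
  have := hS.isHermitian
  rwa [Matrix.IsHermitian, Matrix.conjTranspose_eq_transpose_of_trivial] at this

/-- No zeros of the two-variable polynomial. -/
theorem Val_ne (hS : S.PosDef) (hW : W.PosDef) (hO : Om.transpose = -Om) {c : ℝ} (hc : 0 ≤ c) {s t : ℂ}
    (h : (0 < s.re ∧ 0 ≤ t.re) ∨ (0 ≤ s.re ∧ 0 < t.re)) : Val (Fintype.card ι) (g S W Om c) s t ≠ 0 := by
  have key : ∀ {s t z : ℂ}, z ^ 2 = 1 + c * (s * t) → ((0 < s.re ∧ 0 ≤ t.re) ∨ (0 ≤ s.re ∧ 0 < t.re)) →
      (s • Helper25.EP.cx S + t • Helper25.EP.cx W + z • Helper25.EP.cx Om).det ≠ 0 := by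
    intro s t z hz h
    rcases h with ⟨hs, ht⟩ | ⟨hs, ht⟩
    · exact Helper25.EP.det_ne hS hW hO (X := 1) (by norm_num) hc (by rw [hz]; norm_num) hs ht
    · have := Helper25.EP.det_ne hW hS hO (X := 1) (by norm_num) hc (s := t) (t := s) (z := z) (by rw [hz]; push_cast; ring) ht hs
      rwa [add_comm (t • Helper25.EP.cx W)] at this
  by_cases hs0 : s = 0
  · subst hs0
    rw [Val_zero (tr_of_posDef hS) (tr_of_posDef hW) hO]
    exact key (by simp) h
  · obtain ⟨z, hz⟩ : ∃ z : ℂ, z ^ 2 = 1 + c * (s * t) := ⟨_, Complex.cpow_nat_inv_pow _ (by norm_num)⟩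
    rw [Val_det (tr_of_posDef hS) (tr_of_posDef hW) hO c hs0 t z hz]
    exact key hz h

theorem coeff_zero_D : (D S W Om).coeff 0 = ((X : ℝ[X]) • W.map C + S.map C).det := by
  rw [coeff_zero_eq_eval_zero, D, ← coe_evalRingHom, RingHom.map_det]
  congr 1
  ext1 i j
  simp only [RingHom.mapMatrix_apply, Matrix.map_apply, Mx, Matrix.of_apply, coe_evalRingHom, eval_add, eval_C, eval_mul, eval_X,
    zero_mul, add_zero, Matrix.add_apply, Matrix.smul_apply, smul_eq_mul]
  ring

theorem Gc_zero (c : ℝ) : (Gc S W Om c).coeff 0 = (G S W Om).eval (C c * X) := by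
  rw [Gc, taylor_coeff_zero]

theorem B_zero_card (c : ℝ) : B S W Om c 0 (Fintype.card ι) = W.det := by
  rw [B, Gc_zero, eval_eq_sum_range, finsetSum_coeff, Finset.sum_eq_single 0]
  · rw [pow_zero, mul_one, coeff_G, mul_zero, coeff_zero_D, coeff_det_X_add_C_card]
  · intro m _ hm
    have h1 : ((G S W Om).coeff m).natDegree ≤ Fintype.card ι - 2 * m := by
      rw [natDegree_le_iff_coeff_eq_zero]
      intro k hk
      exact wd_G S W Om m k (by omega)
    by_cases h2 : 2 * m ≤ Fintype.card ι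
    · apply coeff_eq_zero_of_natDegree_lt
      have h3 : ((C c * X : ℝ[X]) ^ m).natDegree ≤ m := by
        refine natDegree_pow_le.trans ?_
        have : (C c * X : ℝ[X]).natDegree ≤ 1 := natDegree_C_mul_le c X |>.trans natDegree_X_le
        nlinarith
      have := natDegree_mul_le (p := (G S W Om).coeff m) (q := (C c * X : ℝ[X]) ^ m)
      omega
    · have : (G S W Om).coeff m = 0 := by
        ext k
        rw [coeff_zero]
        exact wd_G S W Om m k (by omega)
      rw [this, zero_mul, coeff_zero]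
  · intro h
    exact absurd (mem_range.2 (by omega)) h

theorem B_zero_zero (c : ℝ) : B S W Om c 0 0 = S.det := by
  rw [B, Gc_zero, eval_eq_sum_range, finsetSum_coeff, Finset.sum_eq_single 0]
  · rw [pow_zero, mul_one, coeff_G, mul_zero, coeff_zero_D, coeff_det_X_add_C_zero]
  · intro m _ hm
    obtain ⟨m, rfl⟩ := Nat.exists_eq_succ_of_ne_zero hm
    rw [mul_coeff_zero, pow_succ, mul_coeff_zero]
    simp
  · intro h
    exact absurd (mem_range.2 (by omega)) h

/-- The array and the swapped array are stable. -/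
theorem stab (hS : S.PosDef) (hW : W.PosDef) (hO : Om.transpose = -Om) {c : ℝ} (hc : 0 ≤ c) :
    Stab (Fintype.card ι) (g S W Om c) where
  supp j k h := g_supp S W Om c h
  par j k h := g_par S W Om c h
  top := by
    have := g_eq S W Om c (m := 0) (k := Fintype.card ι) (by omega)
    rw [show Fintype.card ι - (2 * 0 + Fintype.card ι) = 0 by omega] at this
    rw [this, B_zero_card]
    exact hW.det_pos
  ne s t hs ht := Val_ne hS hW hO hc (Or.inl ⟨hs, ht⟩)

theorem Val_swap (N : ℕ) (a : ℕ → ℕ → ℝ) (s t : ℂ) : Val N (fun j k => a k j) s t = Val N a t s := by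
  unfold Val
  simp only [Finset.sum_mul]
  rw [Finset.sum_comm]
  refine Finset.sum_congr rfl fun k _ => Finset.sum_congr rfl fun j _ => ?_
  ring

theorem stab' (hS : S.PosDef) (hW : W.PosDef) (hO : Om.transpose = -Om) {c : ℝ} (hc : 0 ≤ c) :
    Stab (Fintype.card ι) (fun j k => g S W Om c k j) where
  supp j k h := g_supp S W Om c (by omega)
  par j k h := g_par S W Om c (by omega)
  top := by
    have := g_eq S W Om c (m := 0) (k := 0) (by omega)
    rw [show Fintype.card ι - (2 * 0 + 0) = Fintype.card ι by omega] at this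
    rw [this, B_zero_zero]
    exact hS.det_pos
  ne s t hs ht := by
    rw [Val_swap]
    exact Val_ne hS hW hO hc (Or.inr ⟨ht, hs⟩)

/-- All relations for the coefficients `B c m k` of `β ^ m τ ^ k` in `det (S + τ W + √(β + c τ) Ω)`. -/
theorem relations (hS : S.PosDef) (hW : W.PosDef) (hO : Om.transpose = -Om) {c : ℝ} (hc : 0 ≤ c) :
    (∀ m k, 0 ≤ B S W Om c m k) ∧ (∀ m k, Fintype.card ι < 2 * m + k → B S W Om c m k = 0) ∧
    (∀ p d k, B S W Om c (p + d) (k + 1) * B S W Om c p k ≤ B S W Om c (p + d) k * B S W Om c p (k + 1)) ∧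
    (∀ p d k, B S W Om c (p + d + 1) k * B S W Om c p (k + 1) ≤ B S W Om c (p + d) (k + 1) * B S W Om c (p + 1) k) ∧
    (∀ p d k, B S W Om c (p + d) k * B S W Om c p (k + 2 * d + 1) ≤ B S W Om c (p + d) (k + 1) * B S W Om c p (k + 2 * d)) ∧
    (∀ p d k, B S W Om c (p + d + 1) k * B S W Om c p (k + 2 * d + 1) ≤
      B S W Om c (p + d) (k + 1) * B S W Om c (p + 1) (k + 2 * d)) := by
  set N := Fintype.card ι with hN
  have st := stab hS hW hO hc
  have st' := stab' hS hW hO hc
  have hsupp : ∀ m k, N < 2 * m + k → B S W Om c m k = 0 := fun m k h => B_supp S W Om c h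
  have hg : ∀ m k, 2 * m + k ≤ N → g S W Om c (N - (2 * m + k)) k = B S W Om c m k := fun m k h => g_eq S W Om c h
  have nn : ∀ m k, 0 ≤ B S W Om c m k := by
    intro m k
    by_cases h : 2 * m + k ≤ N
    · rw [← hg m k h]
      exact st.nonneg _ _
    · rw [hsupp m k (by omega)]
  refine ⟨nn, hsupp, ?_, ?_, ?_, ?_⟩
  · intro p d k
    by_cases h : 2 * (p + d) + (k + 1) ≤ N
    · have := (st.rel (N - (2 * (p + d) + (k + 1))) d k).2
      rw [show N - (2 * (p + d) + (k + 1)) + 2 * d + 1 = N - (2 * p + k) by omega,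
        show N - (2 * (p + d) + (k + 1)) + 1 = N - (2 * (p + d) + k) by omega,
        show N - (2 * (p + d) + (k + 1)) + 2 * d = N - (2 * p + (k + 1)) by omega,
        hg _ _ h, hg _ _ (by omega), hg _ _ (by omega), hg _ _ (by omega)] at this
      exact this
    · rw [hsupp (p + d) (k + 1) (by omega), zero_mul]
      exact mul_nonneg (nn _ _) (nn _ _)
  · intro p d k
    by_cases h : 2 * (p + d + 1) + k ≤ N
    · have := (st.rel (N - (2 * (p + d + 1) + k)) d k).1
      rw [show N - (2 * (p + d + 1) + k) + 2 * d + 1 = N - (2 * p + (k + 1)) by omega,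
        show N - (2 * (p + d + 1) + k) + 1 = N - (2 * (p + d) + (k + 1)) by omega,
        show N - (2 * (p + d + 1) + k) + 2 * d = N - (2 * (p + 1) + k) by omega,
        hg _ _ h, hg _ _ (by omega), hg _ _ (by omega), hg _ _ (by omega)] at this
      exact this
    · rw [hsupp (p + d + 1) k (by omega), zero_mul]
      exact mul_nonneg (nn _ _) (nn _ _)
  · intro p d k
    by_cases h : 2 * (p + d) + (k + 1) ≤ N
    · have := (st'.rel k d (N - (2 * (p + d) + (k + 1)))).2
      rw [show N - (2 * (p + d) + (k + 1)) + 1 = N - (2 * (p + d) + k) by omega, hg _ _ h, hg _ _ (by omega)] at this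
      have e1 : g S W Om c (N - (2 * (p + d) + (k + 1))) (k + 2 * d + 1) = B S W Om c p (k + 2 * d + 1) := by
        rw [← hg p (k + 2 * d + 1) (by omega)]
        congr 1
        omega
      have e2 : g S W Om c (N - (2 * (p + d) + k)) (k + 2 * d) = B S W Om c p (k + 2 * d) := by
        rw [← hg p (k + 2 * d) (by omega)]
        congr 1
        omega
      rw [e1, e2] at this
      exact this
    · rcases (show N < 2 * (p + d) + k ∨ N = 2 * (p + d) + k by omega) with h1 | h1
      · rw [hsupp (p + d) k h1, zero_mul]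
        exact mul_nonneg (nn _ _) (nn _ _)
      · rw [hsupp p (k + 2 * d + 1) (by omega), mul_zero]
        exact mul_nonneg (nn _ _) (nn _ _)
  · intro p d k
    by_cases h : 2 * (p + d + 1) + k ≤ N
    · have := (st'.rel k d (N - (2 * (p + d + 1) + k))).1
      rw [show N - (2 * (p + d + 1) + k) + 1 = N - (2 * (p + d) + (k + 1)) by omega, hg _ _ h, hg _ _ (by omega)] at this
      have e1 : g S W Om c (N - (2 * (p + d) + (k + 1))) (k + 2 * d + 1) = B S W Om c p (k + 2 * d + 1) := by
        rw [← hg p (k + 2 * d + 1) (by omega)]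
        congr 1
        omega
      have e2 : g S W Om c (N - (2 * (p + d + 1) + k)) (k + 2 * d) = B S W Om c (p + 1) (k + 2 * d) := by
        rw [← hg (p + 1) (k + 2 * d) (by omega)]
        congr 1
        omega
      rw [e1, e2] at this
      exact this
    · rw [hsupp (p + d + 1) k (by omega), zero_mul]
      exact mul_nonneg (nn _ _) (nn _ _)

end Pool.Agent.Helper2.IL
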