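import Pool.Agent.Helper2.IL.Seq

/-!
# Real polynomials without zeros in the right half plane

If `h` has no complex zero with positive real part, then `h_i h_(i+2d+1) ≤ h_(i+1) h_(i+2d)`, and all coefficients have one sign.
-/

set_option autoImplicit false

set_option maxHeartbeats 1000000

namespace Pool.Agent.Helper2.IL

open Polynomial

/-- Even part `E` and odd part `O` of a Hurwitz polynomial. -/
structure HB (E O : ℝ[X]) : Prop where
  nE : Nn E
  nO : Nn O
  lo : Le O E
  hi : Le E (X * O)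
  lE : Lc E
  lO : Lc O

theorem Le.zero_right (f : ℝ[X]) : Le f 0 := fun i j _ => by simp

theorem Le.zero_left (f : ℝ[X]) : Le 0 f := fun i j _ => by simp

theorem Le.X {f g : ℝ[X]} (h : Le f g) : Le (X * f) (X * g) := Le.mul_left nnX lcX h

namespace HB

variable {E O : ℝ[X]}

theorem oxe (h : HB E O) : Le O (X * E) := by
  by_cases h0 : E = 0
  · rw [h0, mul_zero]
    exact Le.zero_right O
  · exact Le.trans h.nO h.nE (nnX.mul h.nE) h0 h.lo h.lE

theorem exxo (h : HB E O) : Le E (X * (X * O)) := by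
  by_cases h0 : O = 0
  · rw [h0, mul_zero, mul_zero]
    exact Le.zero_right E
  · exact Le.trans h.nE (nnX.mul h.nO) (nnX.mul (nnX.mul h.nO)) (mul_ne_zero X_ne_zero h0) h.hi h.lO.X

theorem one : HB 1 0 where
  nE := nn1
  nO := fun n => by simp
  lo := Le.zero_left 1
  hi := by rw [mul_zero]; exact Le.zero_right 1
  lE := lc1
  lO := by unfold Lc; exact Le.zero_left _

theorem linear (h : HB E O) {a : ℝ} (ha : 0 ≤ a) : HB (C a * E + X * O) (E + C a * O) where
  nE := (h.nE.smul ha).add (nnX.mul h.nO)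
  nO := h.nE.add (h.nO.smul ha)
  lo := Le.add_left (Le.add_right (Le.smul_right ha (Le.refl E)) h.hi)
    (Le.smul_left ha (Le.add_right (Le.smul_right ha h.lo) h.lO))
  hi := by
    have e : X * (E + C a * O) = X * E + C a * (X * O) := by ring
    rw [e]
    exact Le.add_left (Le.smul_left ha (Le.add_right h.lE (Le.smul_right ha h.hi)))
      (Le.add_right h.lo.X (Le.smul_right ha (Le.refl _)))
  lE := by
    unfold Lc
    have e : X * (C a * E + X * O) = C a * (X * E) + X * (X * O) := by ring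
    rw [e]
    exact Le.add_left (Le.smul_left ha (Le.add_right (Le.smul_right ha h.lE) h.exxo))
      (Le.add_right (Le.smul_right ha h.lo.X) h.lO.X)
  lO := by
    unfold Lc
    have e : X * (E + C a * O) = X * E + C a * (X * O) := by ring
    rw [e]
    exact Le.add_left (Le.add_right h.lE (Le.smul_right ha h.hi))
      (Le.smul_left ha (Le.add_right h.oxe (Le.smul_right ha h.lO)))

theorem lcm {q : ℝ} (hq : 0 ≤ q) : Lc (X + C q) := by
  unfold Lc
  have e : X * (X + C q) = X * X + C q * X := by ring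
  have e' : (X + C q : ℝ[X]) = X + C q * 1 := by ring
  rw [e]
  conv_lhs => rw [e']
  have h1 : Le (1 : ℝ[X]) (X * X) := by
    intro i j hij
    rcases Nat.eq_zero_or_pos j with rfl | hj
    · omega
    · rw [coeff_one, if_neg (show j ≠ 0 by omega), zero_mul]
      exact mul_nonneg (nn1 i) ((nnX.mul nnX) j)
  have h2 : Le (1 : ℝ[X]) X := by
    have := lc1
    unfold Lc at this
    rwa [mul_one] at this
  exact Le.add_left (Le.add_right lcX (Le.smul_right hq (Le.refl X))) (Le.smul_left hq (Le.add_right h1 (Le.smul_right hq h2)))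

theorem nnm {q : ℝ} (hq : 0 ≤ q) : Nn (X + C q) := by
  have e' : (X + C q : ℝ[X]) = X + C q * 1 := by ring
  rw [e']
  exact nnX.add (nn1.smul hq)

theorem quadratic (h : HB E O) {p q : ℝ} (hp : 0 ≤ p) (hq : 0 ≤ q) :
    HB ((X + C q) * E + C p * (X * O)) ((X + C q) * O + C p * E) where
  nE := ((nnm hq).mul h.nE).add ((nnX.mul h.nO).smul hp)
  nO := ((nnm hq).mul h.nO).add (h.nE.smul hp)
  lo := by
    have e1 : (X + C q) * O = X * O + C q * O := by ring
    have e2 : (X + C q) * E = X * E + C q * E := by ring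
    refine Le.add_left (Le.add_right (Le.mul_left (nnm hq) (lcm hq) h.lo) ?_) (Le.smul_left hp (Le.add_right ?_ (Le.smul_right hp h.hi)))
    · rw [e1]
      exact Le.smul_right hp (Le.add_left (Le.refl _) (Le.smul_left hq h.lO))
    · rw [e2]
      exact Le.add_right h.lE (Le.smul_right hq (Le.refl _))
  hi := by
    have e0 : X * ((X + C q) * O + C p * E) = (X + C q) * (X * O) + C p * (X * E) := by ring
    have e1 : (X + C q) * E = X * E + C q * E := by ring
    have e2 : (X + C q) * (X * O) = X * (X * O) + C q * (X * O) := by ring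
    rw [e0]
    refine Le.add_left (Le.add_right (Le.mul_left (nnm hq) (lcm hq) h.hi) ?_) (Le.smul_left hp (Le.add_right ?_ (Le.smul_right hp h.lo.X)))
    · rw [e1]
      exact Le.smul_right hp (Le.add_left (Le.refl _) (Le.smul_left hq h.lE))
    · rw [e2]
      exact Le.add_right h.lO.X (Le.smul_right hq (Le.refl _))
  lE := by
    unfold Lc
    have e0 : X * ((X + C q) * E + C p * (X * O)) = X * ((X + C q) * E) + C p * (X * (X * O)) := by ring
    have e1 : (X + C q) * E = X * E + C q * E := by ring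
    have e3 : X * ((X + C q) * E) = X * (X * E) + C q * (X * E) := by ring
    rw [e0]
    refine Le.add_left (Le.add_right (Lc.mul (nnm hq) h.nE (lcm hq) h.lE) ?_) (Le.smul_left hp (Le.add_right ?_ (Le.smul_right hp h.lO.X)))
    · rw [e1]
      exact Le.smul_right hp (Le.add_left h.hi.X (Le.smul_left hq h.exxo))
    · rw [e3]
      exact Le.add_right h.oxe.X (Le.smul_right hq h.lo.X)
  lO := by
    unfold Lc
    have e0 : X * ((X + C q) * O + C p * E) = X * ((X + C q) * O) + C p * (X * E) := by ring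
    have e1 : (X + C q) * O = X * O + C q * O := by ring
    have e3 : X * ((X + C q) * O) = X * (X * O) + C q * (X * O) := by ring
    rw [e0]
    refine Le.add_left (Le.add_right (Lc.mul (nnm hq) h.nO (lcm hq) h.lO) ?_) (Le.smul_left hp (Le.add_right ?_ (Le.smul_right hp h.lE)))
    · rw [e1]
      exact Le.smul_right hp (Le.add_left h.lo.X (Le.smul_left hq h.oxe))
    · rw [e3]
      exact Le.add_right h.exxo (Le.smul_right hq h.hi)

end HB

/-- `h = E (X ^ 2) + X O (X ^ 2)`. -/
def Hz (h : ℝ[X]) : Prop := ∃ E O : ℝ[X], HB E O ∧ h = expand ℝ 2 E + X * expand ℝ 2 O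

theorem Hz.one : Hz 1 := ⟨1, 0, HB.one, by simp⟩

theorem Hz.linear {h : ℝ[X]} (hh : Hz h) {a : ℝ} (ha : 0 ≤ a) : Hz ((X + C a) * h) := by
  obtain ⟨E, O, hb, rfl⟩ := hh
  refine ⟨_, _, hb.linear ha, ?_⟩
  simp only [map_add, map_mul, expand_C, expand_X]
  ring

theorem Hz.quadratic {h : ℝ[X]} (hh : Hz h) {p q : ℝ} (hp : 0 ≤ p) (hq : 0 ≤ q) : Hz ((X ^ 2 + C p * X + C q) * h) := by
  obtain ⟨E, O, hb, rfl⟩ := hh
  refine ⟨_, _, hb.quadratic hp hq, ?_⟩
  simp only [map_add, map_mul, expand_C, expand_X]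
  ring

theorem Hz.even {E O : ℝ[X]} (n : ℕ) : (expand ℝ 2 E + X * expand ℝ 2 O).coeff (2 * n) = E.coeff n := by
  rw [coeff_add, mul_comm 2 n, coeff_expand_mul (by norm_num)]
  cases n with
  | zero => simp
  | succ n =>
    have : (X * expand ℝ 2 O).coeff ((n + 1) * 2) = 0 := by
      rw [show (n + 1) * 2 = (2 * n + 1) + 1 by ring, coeff_X_mul, coeff_expand (by norm_num), if_neg (by omega)]
    rw [this, add_zero]

theorem Hz.odd {E O : ℝ[X]} (n : ℕ) : (expand ℝ 2 E + X * expand ℝ 2 O).coeff (2 * n + 1) = O.coeff n := by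
  rw [coeff_add, coeff_X_mul, mul_comm 2 n, coeff_expand_mul (by norm_num), coeff_expand (by norm_num), if_neg (by omega), zero_add]

theorem Hz.nn {h : ℝ[X]} (hh : Hz h) : Nn h := by
  obtain ⟨E, O, hb, rfl⟩ := hh
  intro n
  rcases Nat.even_or_odd' n with ⟨k, rfl | rfl⟩
  · rw [Hz.even]
    exact hb.nE k
  · rw [Hz.odd]
    exact hb.nO k

theorem Hz.minor {h : ℝ[X]} (hh : Hz h) (i d : ℕ) :
    h.coeff i * h.coeff (i + 2 * d + 1) ≤ h.coeff (i + 1) * h.coeff (i + 2 * d) := by
  rcases Nat.eq_zero_or_pos d with rfl | hd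
  · simp only [Nat.mul_zero, Nat.add_zero]
    rw [mul_comm]
  obtain ⟨E, O, hb, rfl⟩ := hh
  rcases Nat.even_or_odd' i with ⟨k, rfl | rfl⟩
  · rw [show 2 * k + 2 * d + 1 = 2 * (k + d) + 1 by ring, show 2 * k + 2 * d = 2 * (k + d) by ring, Hz.even, Hz.odd, Hz.odd, Hz.even]
    have := hb.lo k (k + d) (by omega)
    linarith
  · rw [show 2 * k + 1 + 2 * d + 1 = 2 * (k + d + 1) by ring, show 2 * k + 1 + 2 * d = 2 * (k + d) + 1 by ring,
      show 2 * k + 1 + 1 = 2 * (k + 1) by ring, Hz.even, Hz.odd, Hz.odd, Hz.even]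
    have := hb.hi (k + 1) (k + d + 1) (by omega)
    rw [coeff_X_mul, coeff_X_mul] at this
    linarith

/-- No zeros in the open right half plane. -/
def NoZ (h : ℝ[X]) : Prop := ∀ z : ℂ, 0 < z.re → aeval z h ≠ 0

theorem NoZ.ne_zero {h : ℝ[X]} (hh : NoZ h) : h ≠ 0 := by
  rintro rfl
  exact hh 1 (by simp) (by simp)

theorem exists_hz : ∀ (n : ℕ) (h : ℝ[X]), h.natDegree = n → NoZ h → ∃ (c : ℝ) (g : ℝ[X]), c ≠ 0 ∧ Hz g ∧ h = C c * g := by
  intro n
  induction n using Nat.strong_induction_on with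
  | _ n ih =>
    intro h hn hz
    rcases Nat.eq_zero_or_pos n with rfl | hpos
    · have h0 := hz.ne_zero
      rw [natDegree_eq_zero] at hn
      obtain ⟨c, rfl⟩ := hn
      exact ⟨c, 1, fun hc => h0 (by rw [hc, C_0]), Hz.one, by rw [mul_one]⟩
    · have hdeg : 0 < (h.map (algebraMap ℝ ℂ)).degree := by
        rw [degree_map]
        exact natDegree_pos_iff_degree_pos.1 (by omega)
      obtain ⟨z, hzr⟩ := Complex.exists_root hdeg
      have hz0 : aeval z h = 0 := by
        rw [IsRoot, eval_map_algebraMap] at hzr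
        exact hzr
      have hre : z.re ≤ 0 := by
        by_contra hcon
        exact hz z (not_le.1 hcon) hz0
      by_cases him : z.im = 0
      · have hdvd : (X - C z.re) ∣ h := by
          rw [dvd_iff_isRoot, IsRoot]
          have e : z = (z.re : ℂ) := Complex.ext (by simp) (by simp [him])
          rw [e] at hz0
          have : aeval (z.re : ℂ) h = ((eval z.re h : ℝ) : ℂ) := by
            have := Polynomial.aeval_algebraMap_apply ℂ z.re h
            simpa using this
          rw [this] at hz0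
          exact_mod_cast hz0
        obtain ⟨g, rfl⟩ := hdvd
        have hg0 : g ≠ 0 := by
          rintro rfl
          exact hz.ne_zero (mul_zero _)
        have hgd : g.natDegree < n := by
          rw [natDegree_mul (X_sub_C_ne_zero _) hg0, natDegree_X_sub_C] at hn
          omega
        have hgz : NoZ g := fun w hw hcon => hz w hw (by rw [map_mul, hcon, mul_zero])
        obtain ⟨c, g', hc, hg', rfl⟩ := ih _ hgd g rfl hgz
        refine ⟨c, (X + C (-z.re)) * g', hc, hg'.linear (by linarith), ?_⟩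
        rw [C_neg]
        ring
      · obtain ⟨g, rfl⟩ := Polynomial.quadratic_dvd_of_aeval_eq_zero_im_ne_zero h hz0 him
        have hg0 : g ≠ 0 := by
          rintro rfl
          exact hz.ne_zero (mul_zero _)
        have hqd : (X ^ 2 - C (2 * z.re) * X + C (‖z‖ ^ 2)).natDegree = 2 := by
          compute_degree!
        have hq0 : (X ^ 2 - C (2 * z.re) * X + C (‖z‖ ^ 2)) ≠ 0 := by
          intro hcon
          rw [hcon, natDegree_zero] at hqd
          omega
        have hgd : g.natDegree < n := by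
          rw [natDegree_mul hq0 hg0, hqd] at hn
          omega
        have hgz : NoZ g := fun w hw hcon => hz w hw (by rw [map_mul, hcon, mul_zero])
        obtain ⟨c, g', hc, hg', rfl⟩ := ih _ hgd g rfl hgz
        refine ⟨c, (X ^ 2 + C (-(2 * z.re)) * X + C (‖z‖ ^ 2)) * g', hc,
          hg'.quadratic (by linarith) (by positivity), ?_⟩
        rw [C_neg]
        ring

/-- The `2 × 2` minors of the Hurwitz matrix. -/
theorem NoZ.minor {h : ℝ[X]} (hh : NoZ h) (i d : ℕ) :
    h.coeff i * h.coeff (i + 2 * d + 1) ≤ h.coeff (i + 1) * h.coeff (i + 2 * d) := by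
  obtain ⟨c, g, hc, hg, rfl⟩ := exists_hz _ h rfl hh
  simp only [coeff_C_mul]
  have := mul_le_mul_of_nonneg_left (hg.minor i d) (mul_self_nonneg c)
  nlinarith

/-- All coefficients have one sign. -/
theorem NoZ.sign {h : ℝ[X]} (hh : NoZ h) {i : ℕ} (hi : 0 < h.coeff i) : Nn h := by
  obtain ⟨c, g, hc, hg, rfl⟩ := exists_hz _ h rfl hh
  have hg' := hg.nn
  rw [coeff_C_mul] at hi
  have hc' : 0 < c := by
    rcases lt_or_gt_of_ne hc with hlt | hgt
    · exact absurd hi (not_lt.2 (mul_nonpos_of_nonpos_of_nonneg hlt.le (hg' i)))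
    · exact hgt
  exact hg'.smul hc'.le

end Pool.Agent.Helper2.IL
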