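import Mathlib

/-!
# Log-concave sequences and the ratio order

`Le f g`: the quotients `g_i / f_i` increase.  `Lc f`: `f` is log-concave without internal zeros.
-/

set_option autoImplicit false

set_option maxHeartbeats 1000000

namespace Pool.Agent.Helper2.IL

open Polynomial Finset

/-- All coefficients are non-negative. -/
def Nn (f : ℝ[X]) : Prop := ∀ n, 0 ≤ f.coeff n

/-- The ratio order: `f_j g_i ≤ f_i g_j` for `i < j`. -/
def Le (f g : ℝ[X]) : Prop := ∀ i j, i < j → f.coeff j * g.coeff i ≤ f.coeff i * g.coeff j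

/-- Log-concave (without internal zeros, if the coefficients are non-negative). -/
def Lc (f : ℝ[X]) : Prop := Le f (X * f)

theorem Le.refl (f : ℝ[X]) : Le f f := fun i j _ => by rw [mul_comm]

theorem Le.add_left {f g h : ℝ[X]} (h1 : Le f h) (h2 : Le g h) : Le (f + g) h := by
  intro i j hij
  have a := h1 i j hij
  have b := h2 i j hij
  simp only [coeff_add]
  nlinarith

theorem Le.add_right {f g h : ℝ[X]} (h1 : Le f g) (h2 : Le f h) : Le f (g + h) := by
  intro i j hij
  have a := h1 i j hij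
  have b := h2 i j hij
  simp only [coeff_add]
  nlinarith

theorem Le.smul_left {f g : ℝ[X]} {c : ℝ} (hc : 0 ≤ c) (h : Le f g) : Le (C c * f) g := by
  intro i j hij
  have a := mul_le_mul_of_nonneg_left (h i j hij) hc
  simp only [coeff_C_mul]
  linarith

theorem Le.smul_right {f g : ℝ[X]} {c : ℝ} (hc : 0 ≤ c) (h : Le f g) : Le f (C c * g) := by
  intro i j hij
  have a := mul_le_mul_of_nonneg_left (h i j hij) hc
  simp only [coeff_C_mul]
  linarith

theorem Nn.add {f g : ℝ[X]} (hf : Nn f) (hg : Nn g) : Nn (f + g) := fun n => by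
  rw [coeff_add]
  exact add_nonneg (hf n) (hg n)

theorem Nn.mul {f g : ℝ[X]} (hf : Nn f) (hg : Nn g) : Nn (f * g) := fun n => by
  rw [coeff_mul]
  exact sum_nonneg fun p _ => mul_nonneg (hf _) (hg _)

theorem nnX : Nn (X : ℝ[X]) := fun n => by
  rw [coeff_X]
  split_ifs <;> norm_num

theorem nn1 : Nn (1 : ℝ[X]) := fun n => by
  rw [coeff_one]
  split_ifs <;> norm_num

theorem Nn.smul {f : ℝ[X]} {c : ℝ} (hc : 0 ≤ c) (hf : Nn f) : Nn (C c * f) := fun n => by
  rw [coeff_C_mul]
  exact mul_nonneg hc (hf n)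

theorem Le.trans {f g h : ℝ[X]} (hf : Nn f) (hg : Nn g) (hh : Nn h) (g0 : g ≠ 0)
    (h1 : Le f g) (h2 : Le g h) : Le f h := by
  intro i j hij
  have a := h1 i j hij
  have b := h2 i j hij
  have key : f.coeff j = 0 ∨ h.coeff i = 0 ∨ (0 < g.coeff i ∧ 0 < g.coeff j) := by
    obtain ⟨k, hk⟩ : ∃ k, g.coeff k ≠ 0 := by
      by_contra hcon
      push Not at hcon
      exact g0 (Polynomial.ext fun n => by rw [hcon n, coeff_zero])
    have hk' : 0 < g.coeff k := lt_of_le_of_ne (hg k) (Ne.symm hk)
    rcases (hg i).lt_or_eq with gi | gi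
    · rcases (hg j).lt_or_eq with gj | gj
      · exact Or.inr (Or.inr ⟨gi, gj⟩)
      · left
        rw [← gj, mul_zero] at a
        by_contra hne
        exact absurd a (not_le.2 (mul_pos (lt_of_le_of_ne (hf j) (Ne.symm hne)) gi))
    · rcases (hg j).lt_or_eq with gj | gj
      · right; left
        rw [← gi, zero_mul] at b
        by_contra hne
        exact absurd b (not_le.2 (mul_pos gj (lt_of_le_of_ne (hh i) (Ne.symm hne))))
      · have hki : k ≠ i := fun e => by rw [e] at hk'; exact absurd gi (ne_of_lt hk')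
        have hkj : k ≠ j := fun e => by rw [e] at hk'; exact absurd gj (ne_of_lt hk')
        rcases lt_or_gt_of_ne hkj with hlt | hgt
        · left
          have c := h1 k j hlt
          rw [← gj, mul_zero] at c
          by_contra hne
          exact absurd c (not_le.2 (mul_pos (lt_of_le_of_ne (hf j) (Ne.symm hne)) hk'))
        · right; left
          have c := h2 i k (hij.trans hgt)
          rw [← gi, zero_mul] at c
          by_contra hne
          exact absurd c (not_le.2 (mul_pos hk' (lt_of_le_of_ne (hh i) (Ne.symm hne))))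
  rcases key with k1 | k1 | ⟨k1, k2⟩
  · rw [k1, zero_mul]
    exact mul_nonneg (hf i) (hh j)
  · rw [k1, mul_zero]
    exact mul_nonneg (hf i) (hh j)
  · have c : (f.coeff j * g.coeff i) * (g.coeff j * h.coeff i) ≤ (f.coeff i * g.coeff j) * (g.coeff i * h.coeff j) :=
      mul_le_mul a b (mul_nonneg (hg j) (hh i)) (mul_nonneg (hf i) (hg j))
    have d : (g.coeff i * g.coeff j) * (f.coeff j * h.coeff i) ≤ (g.coeff i * g.coeff j) * (f.coeff i * h.coeff j) := by
      nlinarith
    exact le_of_mul_le_mul_left d (mul_pos k1 k2)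

theorem Lc.adj {f : ℝ[X]} (h : Lc f) {p q : ℕ} (hpq : p ≤ q) :
    f.coeff p * f.coeff (q + 1) ≤ f.coeff (p + 1) * f.coeff q := by
  rcases hpq.eq_or_lt with rfl | hlt
  · rw [mul_comm]
  · have a := h (p + 1) (q + 1) (by omega)
    rw [coeff_X_mul, coeff_X_mul] at a
    linarith

theorem Lc.gen {f : ℝ[X]} (h : Lc f) (s : ℕ) {p q : ℕ} (hpq : p ≤ q) :
    f.coeff p * f.coeff (q + s) ≤ f.coeff (p + s) * f.coeff q := by
  induction s generalizing p with
  | zero => exact le_refl _
  | succ s ih =>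
    rcases hpq.eq_or_lt with rfl | hlt
    · rw [mul_comm]
    · have a := h.adj (p := p) (q := q + s) (by omega)
      have b := ih (p := p + 1) (by omega)
      have e1 : p + 1 + s = p + (s + 1) := by omega
      have e2 : q + s + 1 = q + (s + 1) := by omega
      rw [e1] at b
      rw [e2] at a
      linarith

/-- The Toeplitz matrix of `h`. -/
def tp (h : ℝ[X]) (a i : ℕ) : ℝ := if i ≤ a then h.coeff (a - i) else 0

theorem coeff_mul_tp (f h : ℝ[X]) {a N : ℕ} (hN : a < N) :
    (f * h).coeff a = ∑ i ∈ range N, f.coeff i * tp h a i := by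
  rw [coeff_mul, Finset.Nat.sum_antidiagonal_eq_sum_range_succ (fun i j => f.coeff i * h.coeff j)]
  have hsub : range a.succ ⊆ range N := by
    intro x hx
    simp only [mem_range] at *
    omega
  rw [← sum_subset hsub]
  · refine sum_congr rfl fun i hi => ?_
    have : i ≤ a := by simpa [Nat.lt_succ_iff] using hi
    rw [tp, if_pos this]
  · intro i _ hi
    have : ¬ i ≤ a := by simpa [Nat.lt_succ_iff] using hi
    rw [tp, if_neg this, mul_zero]

theorem tp_minor {h : ℝ[X]} (hh : Nn h) (hl : Lc h) {a b i j : ℕ} (hab : a < b) (hij : i < j) :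
    tp h b i * tp h a j ≤ tp h a i * tp h b j := by
  have hn : ∀ x y, 0 ≤ tp h x y := fun x y => by
    unfold tp
    split_ifs
    · exact hh _
    · exact le_refl _
  by_cases hj : j ≤ a
  · have c := hl.gen (j - i) (p := a - j) (q := b - j) (by omega)
    have e1 : b - j + (j - i) = b - i := by omega
    have e2 : a - j + (j - i) = a - i := by omega
    rw [e1, e2] at c
    simp only [tp, if_pos hj, if_pos (show i ≤ a by omega), if_pos (show i ≤ b by omega), if_pos (show j ≤ b by omega)]
    linarith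
  · have : tp h a j = 0 := by rw [tp, if_neg hj]
    rw [this, mul_zero]
    exact mul_nonneg (hn _ _) (hn _ _)

/-- Convolution with a log-concave sequence keeps the ratio order. -/
theorem Le.mul {f g h : ℝ[X]} (hh : Nn h) (hl : Lc h) (hfg : Le f g) : Le (f * h) (g * h) := by
  intro a b hab
  have hb : b < b + 1 := Nat.lt_succ_self b
  have ha : a < b + 1 := by omega
  rw [coeff_mul_tp f h hb, coeff_mul_tp g h ha, coeff_mul_tp f h ha, coeff_mul_tp g h hb, sum_mul_sum, sum_mul_sum]
  set N := b + 1 with hN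
  have key : 0 ≤ ∑ i ∈ range N, ∑ j ∈ range N,
      (f.coeff i * g.coeff j - f.coeff j * g.coeff i) * (tp h a i * tp h b j - tp h b i * tp h a j) := by
    refine sum_nonneg fun i _ => sum_nonneg fun j _ => ?_
    rcases lt_trichotomy i j with hij | rfl | hij
    · exact mul_nonneg (by linarith [hfg i j hij]) (by linarith [tp_minor hh hl hab hij])
    · simp
    · exact mul_nonneg_of_nonpos_of_nonpos (by linarith [hfg j i hij]) (by linarith [tp_minor hh hl hab hij])
  have e1 : ∑ i ∈ range N, ∑ j ∈ range N, f.coeff i * tp h b i * (g.coeff j * tp h a j) =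
      ∑ i ∈ range N, ∑ j ∈ range N, f.coeff j * tp h b j * (g.coeff i * tp h a i) := by
    rw [sum_comm]
  have e2 : ∑ i ∈ range N, ∑ j ∈ range N, f.coeff i * tp h a i * (g.coeff j * tp h b j) =
      ∑ i ∈ range N, ∑ j ∈ range N, f.coeff j * tp h a j * (g.coeff i * tp h b i) := by
    rw [sum_comm]
  have e3 : ∑ i ∈ range N, ∑ j ∈ range N,
      (f.coeff i * g.coeff j - f.coeff j * g.coeff i) * (tp h a i * tp h b j - tp h b i * tp h a j) =
      (∑ i ∈ range N, ∑ j ∈ range N, f.coeff i * tp h a i * (g.coeff j * tp h b j)) -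
      (∑ i ∈ range N, ∑ j ∈ range N, f.coeff i * tp h b i * (g.coeff j * tp h a j)) -
      (∑ i ∈ range N, ∑ j ∈ range N, f.coeff j * tp h b j * (g.coeff i * tp h a i)) +
      (∑ i ∈ range N, ∑ j ∈ range N, f.coeff j * tp h a j * (g.coeff i * tp h b i)) := by
    rw [← sum_sub_distrib, ← sum_sub_distrib, ← sum_add_distrib]
    refine sum_congr rfl fun i _ => ?_
    rw [← sum_sub_distrib, ← sum_sub_distrib, ← sum_add_distrib]
    refine sum_congr rfl fun j _ => ?_
    ring
  rw [e3, ← e1, ← e2] at key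
  linarith

theorem Le.mul_left {f g h : ℝ[X]} (hh : Nn h) (hl : Lc h) (hfg : Le f g) : Le (h * f) (h * g) := by
  rw [mul_comm h f, mul_comm h g]
  exact Le.mul hh hl hfg

theorem lc1 : Lc (1 : ℝ[X]) := by
  intro i j hij
  rw [mul_one]
  rcases Nat.eq_zero_or_pos i with rfl | hi
  · rw [coeff_X_zero, mul_zero]
    exact mul_nonneg (nn1 0) (nnX j)
  · rw [coeff_one, if_neg (show j ≠ 0 by omega), zero_mul]
    exact mul_nonneg (nn1 i) (nnX j)

theorem lcX : Lc (X : ℝ[X]) := by
  have h := lc1
  intro i j hij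
  rcases Nat.eq_zero_or_pos i with rfl | hi
  · have : ((Polynomial.X : ℝ[X]) * Polynomial.X).coeff 0 = 0 := by simp
    rw [this, mul_zero]
    exact mul_nonneg (nnX 0) ((nnX.mul nnX) j)
  · rw [coeff_X, if_neg (show ¬ 1 = j by omega), zero_mul]
    exact mul_nonneg (nnX i) ((nnX.mul nnX) j)

/-- A pair `f ≤ g ≤ X f` is log-concave. -/
theorem Lc.of_left {f g : ℝ[X]} (hf : Nn f) (hg : Nn g) (g0 : g ≠ 0) (h1 : Le f g) (h2 : Le g (X * f)) : Lc f :=
  Le.trans hf hg (nnX.mul hf) g0 h1 h2

theorem Lc.of_right {f g : ℝ[X]} (hf : Nn f) (hg : Nn g) (f0 : f ≠ 0) (h1 : Le f g) (h2 : Le g (X * f)) : Lc g :=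
  Le.trans hg (nnX.mul hf) (nnX.mul hg) (mul_ne_zero X_ne_zero f0) h2 (Le.mul_left nnX lcX h1)

theorem Lc.mul {f g : ℝ[X]} (_hf : Nn f) (hg : Nn g) (lf : Lc f) (lg : Lc g) : Lc (f * g) := by
  unfold Lc
  rw [← mul_assoc]
  exact Le.mul hg lg lf

end Pool.Agent.Helper2.IL
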