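import Pool.Agent.Helper2.IL.Hurwitz

/-!
# Two neighbouring rows of a stable polynomial in two variables
-/

set_option autoImplicit false

set_option maxHeartbeats 1000000

namespace Pool.Agent.Helper2.IL

open Polynomial Finset

/-- No zeros in the closed right half plane. -/
def St (p : ℂ[X]) : Prop := ∀ t : ℂ, 0 ≤ t.re → p.eval t ≠ 0

theorem St.ne_zero {p : ℂ[X]} (hp : St p) : p ≠ 0 := by
  rintro rfl
  exact hp 0 (by simp) (by simp)

theorem convex_lhp : Convex ℝ {z : ℂ | z.re < 0} := convex_halfSpace_re_lt 0

theorem St.derivative {p : ℂ[X]} (hp : St p) (hd : 0 < p.natDegree) : St (derivative p) := by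
  intro t ht hcon
  have hd' : 0 < p.degree := natDegree_pos_iff_degree_pos.1 hd
  have h1 : t ∈ p.derivative.rootSet ℂ := by
    rw [mem_rootSet]
    refine ⟨?_, by rw [coe_aeval_eq_eval]; exact hcon⟩
    intro h0
    have := natDegree_eq_zero_of_derivative_eq_zero h0
    omega
  have h2 := rootSet_derivative_subset_convexHull_rootSet hd' h1
  have h3 : convexHull ℝ (p.rootSet ℂ) ⊆ {z : ℂ | z.re < 0} := by
    refine convexHull_min ?_ convex_lhp
    intro z hz
    rw [mem_rootSet, coe_aeval_eq_eval] at hz
    by_contra hcon2
    exact hp z (not_lt.1 hcon2) hz.2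
  have h4 := h3 h2
  exact absurd ht (not_le.2 h4)

theorem St.iterate {p : ℂ[X]} (hp : St p) : ∀ k : ℕ, k ≤ p.natDegree →
    St (Polynomial.derivative^[k] p) ∧ (Polynomial.derivative^[k] p).natDegree = p.natDegree - k := by
  intro k
  induction k with
  | zero => intro _; exact ⟨hp, by simp⟩
  | succ k ih =>
    intro hk
    obtain ⟨h1, h2⟩ := ih (by omega)
    rw [Function.iterate_succ_apply']
    have hpos : 0 < (Polynomial.derivative^[k] p).natDegree := by omega
    refine ⟨h1.derivative hpos, ?_⟩
    have := natDegree_derivative (Polynomial.derivative^[k] p)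
    rw [this, h2]
    omega

theorem St.log_deriv {p : ℂ[X]} (hp : St p) {l : ℝ} (hl : 0 ≤ l) : p.eval 0 + l * (Polynomial.derivative p).eval 0 ≠ 0 := by
  have h0 : p.eval 0 ≠ 0 := hp 0 (by simp)
  have key := (IsAlgClosed.splits p).eval_derivative_div_eval_of_ne_zero h0
  have hre : 0 ≤ ((Polynomial.derivative p).eval 0 / p.eval 0).re := by
    rw [key]
    have : ∀ m : Multiset ℂ, (∀ z ∈ m, z.re ≤ 0) → 0 ≤ ((m.map fun z => 1 / (0 - z)).sum).re := by
      intro m
      induction m using Multiset.induction_on with
      | empty => intro _; simp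
      | cons a m ih =>
        intro h
        rw [Multiset.map_cons, Multiset.sum_cons, Complex.add_re]
        refine add_nonneg ?_ (ih fun z hz => h z (Multiset.mem_cons_of_mem hz))
        have ha := h a (Multiset.mem_cons_self a m)
        rw [one_div, Complex.inv_re]
        refine div_nonneg ?_ (Complex.normSq_nonneg _)
        simp only [Complex.sub_re, Complex.zero_re]
        linarith
    refine this _ fun z hz => ?_
    rw [mem_roots hp.ne_zero] at hz
    by_contra hcon
    exact hp z (not_le.1 hcon).le hz
  intro hcon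
  have e : (1 : ℂ) + l * ((Polynomial.derivative p).eval 0 / p.eval 0) = 0 := by
    field_simp
    linear_combination hcon
  have e2 := congrArg Complex.re e
  simp only [Complex.add_re, Complex.one_re, Complex.zero_re, Complex.re_ofReal_mul] at e2
  nlinarith [mul_nonneg hl hre]

/-- Neighbouring coefficients of a polynomial without zeros in the closed right half plane. -/
theorem St.coeffs {p : ℂ[X]} (hp : St p) {k : ℕ} (hk : k ≤ p.natDegree) {l : ℝ} (hl : 0 ≤ l) :
    p.coeff k + l * p.coeff (k + 1) ≠ 0 := by
  obtain ⟨h1, _⟩ := hp.iterate k hk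
  have h2 := h1.log_deriv (l := l / (k + 1)) (by positivity)
  rw [← Function.iterate_succ_apply' Polynomial.derivative k p] at h2
  rw [← coeff_zero_eq_eval_zero, ← coeff_zero_eq_eval_zero, coeff_iterate_derivative, coeff_iterate_derivative] at h2
  simp only [zero_add, Nat.descFactorial_self, nsmul_eq_mul] at h2
  intro hcon
  apply h2
  rw [Nat.factorial_succ]
  push_cast
  have hk0 : ((k : ℂ) + 1) ≠ 0 := by exact_mod_cast Nat.succ_ne_zero k
  field_simp
  linear_combination (k.factorial : ℂ) * hcon

/-- The value of the array `g` at `(s, t)`. -/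
noncomputable def Val (N : ℕ) (g : ℕ → ℕ → ℝ) (s t : ℂ) : ℂ :=
  ∑ k ∈ range (N + 1), (∑ j ∈ range (N + 1), (g j k : ℂ) * s ^ j) * t ^ k

/-- A row of the array. -/
noncomputable def row (N : ℕ) (g : ℕ → ℕ → ℝ) (k : ℕ) : ℝ[X] := ∑ j ∈ range (N + 1), C (g j k) * X ^ j

theorem coeff_row (N : ℕ) (g : ℕ → ℕ → ℝ) (k j : ℕ) : (row N g k).coeff j = if j ≤ N then g j k else 0 := by
  unfold row
  rw [finsetSum_coeff]
  simp only [coeff_C_mul, coeff_X_pow, mul_ite, mul_one, mul_zero]
  by_cases hj : j ≤ N
  · rw [if_pos hj, Finset.sum_eq_single j]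
    · simp
    · intro b _ hb
      rw [if_neg (Ne.symm hb)]
    · intro hcon
      exact absurd (mem_range.2 (by omega)) hcon
  · rw [if_neg hj]
    refine Finset.sum_eq_zero fun b hb => ?_
    have := mem_range.1 hb
    rw [if_neg (by omega)]

theorem aeval_row (N : ℕ) (g : ℕ → ℕ → ℝ) (k : ℕ) (s : ℂ) : aeval s (row N g k) = ∑ j ∈ range (N + 1), (g j k : ℂ) * s ^ j := by
  unfold row
  rw [map_sum]
  refine Finset.sum_congr rfl fun j _ => ?_
  rw [map_mul, map_pow, aeval_X, aeval_C]
  rfl

/-- The array is supported in `j, k ≤ N` and stable in both variables, with constant leading coefficient in `t`. -/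
structure Stab (N : ℕ) (g : ℕ → ℕ → ℝ) : Prop where
  supp : ∀ j k, N < j + k → g j k = 0
  par : ∀ j k, (j + k) % 2 ≠ N % 2 → g j k = 0
  top : 0 < g 0 N
  ne : ∀ s t : ℂ, 0 < s.re → 0 ≤ t.re → Val N g s t ≠ 0

variable {N : ℕ} {g : ℕ → ℕ → ℝ}

theorem Stab.noz (h : Stab N g) {k : ℕ} (hk : k ≤ N) {l : ℝ} (hl : 0 ≤ l) : NoZ (row N g k + C l * row N g (k + 1)) := by
  intro s hs
  set p : ℂ[X] := ∑ k ∈ range (N + 1), C (aeval s (row N g k)) * X ^ k with hp
  have hc : ∀ m, p.coeff m = if m ≤ N then aeval s (row N g m) else 0 := by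
    intro m
    rw [hp, finsetSum_coeff]
    simp only [coeff_C_mul, coeff_X_pow, mul_ite, mul_one, mul_zero]
    by_cases hj : m ≤ N
    · rw [if_pos hj, Finset.sum_eq_single m]
      · simp
      · intro b _ hb
        rw [if_neg (Ne.symm hb)]
      · intro hcon
        exact absurd (mem_range.2 (by omega)) hcon
    · rw [if_neg hj]
      refine Finset.sum_eq_zero fun b hb => ?_
      have := mem_range.1 hb
      rw [if_neg (by omega)]
  have hrow : row N g N = C (g 0 N) := by
    ext j
    rw [coeff_row, coeff_C]
    rcases Nat.eq_zero_or_pos j with rfl | hj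
    · simp
    · rw [if_neg (show j ≠ 0 by omega)]
      split_ifs
      · exact h.supp j N (by omega)
      · rfl
  have hdeg : p.natDegree = N := by
    apply le_antisymm
    · rw [natDegree_le_iff_coeff_eq_zero]
      intro m hm
      rw [hc, if_neg (by omega)]
    · apply le_natDegree_of_ne_zero
      rw [hc, if_pos (le_refl N), hrow, aeval_C]
      have := h.top.ne'
      simpa using this
  have hst : St p := by
    intro t ht
    have := h.ne s t hs ht
    rw [Val] at this
    rw [hp, eval_finsetSum]
    simp only [eval_mul, eval_C, eval_pow, eval_X, aeval_row]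
    exact this
  have key := hst.coeffs (k := k) (by omega) hl
  rw [hc, if_pos hk, hc] at key
  rw [map_add, map_mul, aeval_C]
  by_cases hk1 : k + 1 ≤ N
  · rw [if_pos hk1] at key
    exact key
  · rw [if_neg hk1] at key
    have : row N g (k + 1) = 0 := by
      ext j
      rw [coeff_row, coeff_zero]
      split_ifs
      · exact h.supp j (k + 1) (by omega)
      · rfl
    rw [this]
    simpa using key

theorem Stab.nonneg (h : Stab N g) : ∀ j k, 0 ≤ g j k := by
  have main : ∀ d k, k + d = N → Nn (row N g k) := by
    intro d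
    induction d with
    | zero =>
      intro k hk
      have hk' : k = N := by omega
      subst hk'
      have hz := h.noz (le_refl k) (le_refl (0 : ℝ))
      rw [C_0, zero_mul, add_zero] at hz
      refine hz.sign (i := 0) ?_
      rw [coeff_row, if_pos (by omega)]
      exact h.top
    | succ d ih =>
      intro k hk
      have ih' := ih (k + 1) (by omega)
      have hz := h.noz (k := k) (by omega) (zero_le_one' ℝ)
      have hz1 := h.noz (k := k + 1) (by omega) (le_refl (0 : ℝ))
      rw [C_0, zero_mul, add_zero] at hz1
      have hne := hz1.ne_zero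
      obtain ⟨i, hi⟩ : ∃ i, (row N g (k + 1)).coeff i ≠ 0 := by
        by_contra hcon
        push Not at hcon
        exact hne (Polynomial.ext fun n => by rw [hcon n, coeff_zero])
      have hi' : 0 < (row N g (k + 1)).coeff i := lt_of_le_of_ne (ih' i) (Ne.symm hi)
      have hik : g i k = 0 := by
        rw [coeff_row] at hi
        split_ifs at hi with hiN
        · apply h.par
          have : (i + (k + 1)) % 2 = N % 2 := by
            by_contra hcon
            exact hi (h.par i (k + 1) hcon)
          omega
        · exact absurd rfl hi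
      have hs : 0 < (row N g k + C 1 * row N g (k + 1)).coeff i := by
        rw [C_1, one_mul, coeff_add]
        have : (row N g k).coeff i = 0 := by
          rw [coeff_row, hik]
          simp
        rw [this, zero_add]
        exact hi'
      have hn := hz.sign hs
      intro n
      have hnn := hn n
      rw [C_1, one_mul, coeff_add] at hnn
      by_cases hpar : (n + k) % 2 = N % 2
      · have : (row N g (k + 1)).coeff n = 0 := by
          rw [coeff_row]
          split_ifs
          · exact h.par n (k + 1) (by omega)
          · rfl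
        rw [this, add_zero] at hnn
        exact hnn
      · have : (row N g k).coeff n = 0 := by
          rw [coeff_row]
          split_ifs
          · exact h.par n k hpar
          · rfl
        rw [this]
  intro j k
  by_cases hjk : N < j + k
  · rw [h.supp j k hjk]
  · have := main (N - k) k (by omega) j
    rw [coeff_row, if_pos (by omega)] at this
    exact this

/-- The interlacing relations for neighbouring rows. -/
theorem Stab.rel (h : Stab N g) (i d k : ℕ) :
    g i k * g (i + 2 * d + 1) (k + 1) ≤ g (i + 1) (k + 1) * g (i + 2 * d) k ∧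
      g i (k + 1) * g (i + 2 * d + 1) k ≤ g (i + 1) k * g (i + 2 * d) (k + 1) := by
  have hnn := h.nonneg
  have hcoef : ∀ m n, (row N g n).coeff m = g m n := by
    intro m n
    rw [coeff_row]
    split_ifs
    · rfl
    · exact (h.supp m n (by omega)).symm
  by_cases hk : k ≤ N
  · have hz := (h.noz hk (zero_le_one' ℝ)).minor i d
    simp only [C_1, one_mul, coeff_add, hcoef] at hz
    by_cases hpar : (i + k) % 2 = N % 2
    · have e1 : g i (k + 1) = 0 := h.par _ _ (by omega)
      have e2 : g (i + 2 * d + 1) k = 0 := h.par _ _ (by omega)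
      have e3 : g (i + 1) k = 0 := h.par _ _ (by omega)
      have e4 : g (i + 2 * d) (k + 1) = 0 := h.par _ _ (by omega)
      rw [e1, e2, e3, e4] at hz ⊢
      refine ⟨?_, by simp⟩
      simpa using hz
    · have e1 : g i k = 0 := h.par _ _ (by omega)
      have e2 : g (i + 2 * d + 1) (k + 1) = 0 := h.par _ _ (by omega)
      have e3 : g (i + 1) (k + 1) = 0 := h.par _ _ (by omega)
      have e4 : g (i + 2 * d) k = 0 := h.par _ _ (by omega)
      rw [e1, e2, e3, e4] at hz ⊢
      refine ⟨by simp, ?_⟩
      simpa using hz
  · have e1 : g i k = 0 := h.supp _ _ (by omega)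
    have e2 : g i (k + 1) = 0 := h.supp _ _ (by omega)
    rw [e1, e2]
    exact ⟨by simpa using mul_nonneg (hnn _ _) (hnn _ _), by simpa using mul_nonneg (hnn _ _) (hnn _ _)⟩

end Pool.Agent.Helper2.IL
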